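import Pool.Agent.Lib_helper59.HT.Defs

set_option autoImplicit false

open Finset Matrix

namespace Pool.Agent.HT

theorem cb_expand {ι T : Type} [Fintype ι] [DecidableEq ι] [Fintype T]
    (v : T → ι → ℝ) (x : T → ℝ) :
    (∑ t, x t • Matrix.vecMulVec (v t) (v t)).det =
      ∑ τ : ι → T, (∏ i, x (τ i) * v (τ i) i) * (Matrix.of fun i e => v (τ i) e).det := by
  classical
  have h1 : (∑ t, x t • Matrix.vecMulVec (v t) (v t)) =
      Matrix.of (fun i => ∑ t, (x t * v t i) • v t) := by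
    ext i j
    simp [Matrix.sum_apply, Matrix.vecMulVec_apply, mul_assoc]
  rw [h1]
  have h2 := (Matrix.detRowAlternating (R := ℝ) (n := ι)).toMultilinearMap.map_sum
    (fun (i : ι) (t : T) => (x t * v t i) • v t)
  change (Matrix.detRowAlternating (R := ℝ) (n := ι)) (fun i => ∑ t, (x t * v t i) • v t) = _
  refine h2.trans ?_
  refine Finset.sum_congr rfl fun τ _ => ?_
  have h3 := (Matrix.detRowAlternating (R := ℝ) (n := ι)).toMultilinearMap.map_smul_univ
    (fun i => x (τ i) * v (τ i) i) (fun i => v (τ i))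
  rw [h3]
  rfl

/-- BLOCK CB: Cauchy-Binet in tuple form -/
theorem cb_pr {ι T : Type} [Fintype ι] [DecidableEq ι] [Fintype T]
    (v : T → ι → ℝ) (x : T → ℝ) :
    ∑ τ : ι → T, (∏ i, x (τ i)) * (Matrix.of fun i e => v (τ i) e).det ^ 2 =
      ((Fintype.card ι).factorial : ℝ) *
        (∑ t, x t • Matrix.vecMulVec (v t) (v t)).det := by
  classical
  rw [cb_expand]
  -- average over permutations
  have h1 : ∀ σ : Equiv.Perm ι,
      ∑ τ : ι → T, (∏ i, x (τ i) * v (τ i) i) * (Matrix.of fun i e => v (τ i) e).det =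
      ∑ τ : ι → T, (∏ i, x (τ i)) * ((Equiv.Perm.sign σ : ℤ) : ℝ) * (∏ i, v (τ (σ i)) i) *
        (Matrix.of fun i e => v (τ i) e).det := by
    intro σ
    rw [← Equiv.sum_comp (Equiv.arrowCongr σ.symm (Equiv.refl T))]
    refine Finset.sum_congr rfl fun τ _ => ?_
    have e1 : (Equiv.arrowCongr σ.symm (Equiv.refl T)) τ = fun i => τ (σ i) := by
      ext i; simp [Equiv.arrowCongr]
    rw [e1]
    have e2 : (Matrix.of fun i e => v (τ (σ i)) e).det =
        ((Equiv.Perm.sign σ : ℤ) : ℝ) * (Matrix.of fun i e => v (τ i) e).det := by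
      have := Matrix.det_permute σ (Matrix.of fun i e => v (τ i) e)
      exact this
    rw [e2, Finset.prod_mul_distrib]
    have e3 : ∏ i, x (τ (σ i)) = ∏ i, x (τ i) := Equiv.prod_comp σ (fun i => x (τ i))
    rw [e3]
    ring
  have h2 : ((Fintype.card ι).factorial : ℝ) *
      ∑ τ : ι → T, (∏ i, x (τ i) * v (τ i) i) * (Matrix.of fun i e => v (τ i) e).det =
      ∑ σ : Equiv.Perm ι, ∑ τ : ι → T, (∏ i, x (τ i)) * ((Equiv.Perm.sign σ : ℤ) : ℝ) *
        (∏ i, v (τ (σ i)) i) * (Matrix.of fun i e => v (τ i) e).det := by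
    rw [← Finset.sum_congr rfl (fun σ _ => h1 σ), Finset.sum_const, Finset.card_univ,
      Fintype.card_perm, nsmul_eq_mul]
  rw [h2, Finset.sum_comm]
  refine Finset.sum_congr rfl fun τ _ => ?_
  have h3 : (Matrix.of fun i e => v (τ i) e).det =
      ∑ σ : Equiv.Perm ι, ((Equiv.Perm.sign σ : ℤ) : ℝ) * ∏ i, v (τ (σ i)) i := by
    rw [Matrix.det_apply']
    rfl
  rw [pow_two]
  nth_rewrite 1 [h3]
  rw [Finset.sum_mul, Finset.mul_sum]
  refine Finset.sum_congr rfl fun σ _ => ?_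
  ring

end Pool.Agent.HT
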