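import Pool.Agent.Lib_helper59.HT.Defs

set_option autoImplicit false

open Finset Matrix

namespace Pool.Agent.HT

/-- polarized norm identity -/
theorem norm_bilin {n : ℕ} (g h : Fin n → Fin n → ℝ) (hg : ∀ a b, g a b = - g b a)
    (hh : ∀ a b, h a b = - h b a) :
    ∑ t : Tri n, cob g t * cob h t =
      3 * n * ∑ a, ∑ b, g a b * h a b - 6 * ∑ a, (∑ b, g a b) * (∑ b, h a b) := by
  have e0 : ∑ t : Tri n, cob g t * cob h t = ∑ a, ∑ b, ∑ c,
      (g a b * h a b + g b c * h b c + g c a * h c a +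
        (g a b * h b c + g b c * h c a + g c a * h a b) +
        (h a b * g b c + h b c * g c a + h c a * g a b)) := by
    rw [Fintype.sum_prod_type]
    refine Finset.sum_congr rfl fun a _ => ?_
    rw [Fintype.sum_prod_type]
    refine Finset.sum_congr rfl fun b _ => Finset.sum_congr rfl fun c _ => ?_
    simp only [cob]
    ring
  have rot : ∀ F : Fin n → Fin n → Fin n → ℝ,
      ∑ a, ∑ b, ∑ c, F b c a = ∑ a, ∑ b, ∑ c, F a b c := by
    intro F
    rw [Finset.sum_comm]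
    refine Finset.sum_congr rfl fun b _ => ?_
    rw [Finset.sum_comm]
  have s1 : ∑ a, ∑ b, ∑ _c : Fin n, g a b * h a b = n * ∑ a, ∑ b, g a b * h a b := by
    simp only [Finset.sum_const, Finset.card_univ, Fintype.card_fin, nsmul_eq_mul]
    rw [Finset.mul_sum]
    refine Finset.sum_congr rfl fun a _ => ?_
    rw [Finset.mul_sum]
  have cross : ∀ g h : Fin n → Fin n → ℝ, (∀ a b, g a b = - g b a) →
      ∑ a, ∑ b, ∑ c, g a b * h b c = - ∑ b, (∑ a, g b a) * (∑ c, h b c) := by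
    intro g h hg
    rw [Finset.sum_comm, ← Finset.sum_neg_distrib]
    refine Finset.sum_congr rfl fun b _ => ?_
    rw [← neg_mul, ← Finset.sum_neg_distrib, Finset.sum_mul]
    refine Finset.sum_congr rfl fun a _ => ?_
    rw [Finset.mul_sum]
    refine Finset.sum_congr rfl fun c _ => ?_
    rw [hg a b]
  have c1 := cross g h hg
  have c2 := cross h g hh
  have c2' : ∑ b, (∑ a, h b a) * (∑ c, g b c) = ∑ b, (∑ a, g b a) * (∑ c, h b c) :=
    Finset.sum_congr rfl fun b _ => mul_comm _ _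
  rw [c2'] at c2
  have rot2 : ∀ F : Fin n → Fin n → Fin n → ℝ,
      ∑ a, ∑ b, ∑ c, F c a b = ∑ a, ∑ b, ∑ c, F a b c := by
    intro F
    exact (rot fun a b c => F b c a).trans (rot F)
  rw [e0]
  simp only [Finset.sum_add_distrib]
  rw [rot (fun a b _ => g a b * h a b), rot2 (fun a b _ => g a b * h a b),
    rot (fun a b c => g a b * h b c), rot2 (fun a b c => g a b * h b c),
    rot (fun a b c => h a b * g b c), rot2 (fun a b c => h a b * g b c), s1, c1, c2]
  ring

/-- BLOCK NORM -/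
theorem norm_identity_pr {n : ℕ} (g : Fin n → Fin n → ℝ) (hg : ∀ a b, g a b = - g b a) :
    ∑ t : Tri n, (cob g t) ^ 2 =
      3 * n * ∑ a, ∑ b, g a b ^ 2 - 6 * ∑ a, (∑ b, g a b) ^ 2 := by
  simp only [pow_two]
  exact norm_bilin g g hg hg

/-! ### the chains -/

theorem norm_chi_anti {n : ℕ} (a b : Fin n) (e : Fin n × Fin n) : chi a b e = - chi b a e := by
  simp [chi]

theorem norm_bd_eq {n : ℕ} (t : Tri n) (e : Fin n × Fin n) :
    (bd t e : ℝ) = cob (fun a b => ((chi a b e : ℤ) : ℝ)) t := by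
  simp [bd, cob]

/-- the incidence of an edge and a vertex -/
def norm_inc {n : ℕ} (e : Fin n × Fin n) (a : Fin n) : ℝ :=
  (if a = e.2 then 1 else 0) - (if a = e.1 then 1 else 0)

theorem norm_sum_chi {n : ℕ} (e : Fin n × Fin n) (a : Fin n) :
    ∑ b, ((chi a b e : ℤ) : ℝ) = - norm_inc e a := by
  obtain ⟨u, v⟩ := e
  simp only [chi, norm_inc, Prod.mk.injEq]
  push_cast
  rw [Finset.sum_sub_distrib]
  have e1 : ∑ b : Fin n, (if u = a ∧ v = b then (1 : ℝ) else 0) = if a = u then 1 else 0 := by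
    by_cases h1 : u = a
    · simp [h1]
    · simp [h1]
      exact fun h => h1 h.symm
  have e2 : ∑ b : Fin n, (if u = b ∧ v = a then (1 : ℝ) else 0) = if a = v then 1 else 0 := by
    by_cases h1 : v = a
    · simp [h1]
    · simp [h1]
      exact fun h => h1 h.symm
  rw [e1, e2]
  ring

theorem norm_swap {n : ℕ} {α : Type} [Fintype α] (F : Fin n → Fin n → α → ℝ) :
    ∑ a, ∑ b, ∑ e, F a b e = ∑ e, ∑ a, ∑ b, F a b e := by
  rw [Finset.sum_comm (s := (univ : Finset α)) (t := (univ : Finset (Fin n)))]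
  exact Finset.sum_congr rfl fun a _ => Finset.sum_comm

theorem norm_chi_chi {n : ℕ} (e e' : E n) :
    ∑ a, ∑ b, ((chi a b e.1 : ℤ) : ℝ) * ((chi a b e'.1 : ℤ) : ℝ) =
      if e = e' then 2 else 0 := by
  obtain ⟨⟨u, v⟩, h⟩ := e
  obtain ⟨⟨u', v'⟩, h'⟩ := e'
  simp only at h h'
  have h3 : ∀ a b : Fin n, ((chi a b (u, v) : ℤ) : ℝ) =
      (if a = u then (if b = v then 1 else 0) else 0) -
        (if a = v then (if b = u then 1 else 0) else 0) := by
    intro a b
    simp only [chi, Prod.mk.injEq]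
    push_cast
    have hc : ∀ (p q r s : Fin n), (if p = q ∧ r = s then (1 : ℝ) else 0) =
        if q = p then (if s = r then 1 else 0) else 0 := by
      intro p q r s
      by_cases h1 : p = q
      · subst h1
        by_cases h2 : r = s
        · subst h2; simp
        · have h2' : ¬ s = r := fun h => h2 h.symm
          simp [h2, h2']
      · have h1' : ¬ q = p := fun h => h1 h.symm
        simp [h1, h1']
    rw [hc u a v b]
    congr 1
    rw [← hc v a u b]
    exact if_congr and_comm rfl rfl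
  simp only [h3, sub_mul, Finset.sum_sub_distrib, ite_mul, one_mul, zero_mul]
  simp only [Finset.sum_ite_irrel, Finset.sum_ite_eq', Finset.mem_univ, if_true,
    Finset.sum_const_zero]
  simp only [chi, Prod.mk.injEq, Subtype.mk.injEq]
  push_cast
  have hne : ¬ (u' = v ∧ v' = u) := by
    rintro ⟨rfl, rfl⟩
    exact absurd (h.trans h') (lt_irrefl _)
  have hne2 : ¬ (v = u' ∧ u = v') := fun hh => hne ⟨hh.1.symm, hh.2.symm⟩
  by_cases he : u = u' ∧ v = v'
  · obtain ⟨rfl, rfl⟩ := he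
    simp [h.ne, h.ne']
    norm_num
  · have he2 : ¬ (u' = u ∧ v' = v) := fun hh => he ⟨hh.1.symm, hh.2.symm⟩
    have he3 : ¬ (u' = v ∧ v' = u) := hne
    have he4 : ¬ (v' = v ∧ u' = u) := fun hh => he2 ⟨hh.2, hh.1⟩
    have he5 : ¬ (v' = u ∧ u' = v) := fun hh => hne ⟨hh.2, hh.1⟩
    simp [he, he2, he3]

/-- inner products of the boundary vectors -/
theorem norm_gram {n : ℕ} (e e' : E n) :
    ∑ t : Tri n, (bd t e.1 : ℝ) * (bd t e'.1 : ℝ) =
      6 * n * (if e = e' then 1 else 0) - 6 * ∑ a, norm_inc e.1 a * norm_inc e'.1 a := by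
  simp only [norm_bd_eq]
  rw [norm_bilin _ _ (fun a b => by rw [norm_chi_anti a b]; push_cast; ring)
    (fun a b => by rw [norm_chi_anti a b]; push_cast; ring), norm_chi_chi]
  simp only [norm_sum_chi]
  have : ∀ a, -norm_inc e.1 a * -norm_inc e'.1 a = norm_inc e.1 a * norm_inc e'.1 a :=
    fun a => by ring
  simp only [this]
  split_ifs <;> ring

/-- antisymmetric extension of a function of the edges -/
noncomputable def norm_ext {n : ℕ} (v : E n → ℝ) (a b : Fin n) : ℝ :=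
  ∑ e : E n, ((chi a b e.1 : ℤ) : ℝ) * v e

theorem norm_ext_anti {n : ℕ} (v : E n → ℝ) (a b : Fin n) :
    norm_ext v a b = - norm_ext v b a := by
  simp only [norm_ext]
  rw [← Finset.sum_neg_distrib]
  refine Finset.sum_congr rfl fun e _ => ?_
  rw [norm_chi_anti a b]
  push_cast
  ring

theorem norm_cob_ext {n : ℕ} (v : E n → ℝ) (t : Tri n) :
    cob (norm_ext v) t = ∑ e : E n, (bd t e.1 : ℝ) * v e := by
  simp only [cob, norm_ext, bd]
  push_cast
  simp only [add_mul, Finset.sum_add_distrib]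

theorem norm_ext_sq {n : ℕ} (v : E n → ℝ) :
    ∑ a, ∑ b, norm_ext v a b ^ 2 = 2 * ∑ e : E n, v e ^ 2 := by
  have h1 : ∀ a b : Fin n, norm_ext v a b ^ 2 =
      ∑ e : E n, ∑ e' : E n, (v e * v e') *
        (((chi a b e.1 : ℤ) : ℝ) * ((chi a b e'.1 : ℤ) : ℝ)) := by
    intro a b
    rw [pow_two, norm_ext, Finset.sum_mul_sum]
    refine Finset.sum_congr rfl fun e _ => Finset.sum_congr rfl fun e' _ => ?_
    ring
  simp only [h1]
  have h2 : ∑ a, ∑ b, ∑ e : E n, ∑ e' : E n, (v e * v e') *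
        (((chi a b e.1 : ℤ) : ℝ) * ((chi a b e'.1 : ℤ) : ℝ)) =
      ∑ e : E n, ∑ e' : E n, (v e * v e') *
        ∑ a, ∑ b, (((chi a b e.1 : ℤ) : ℝ) * ((chi a b e'.1 : ℤ) : ℝ)) := by
    rw [norm_swap]
    refine Finset.sum_congr rfl fun e _ => ?_
    rw [norm_swap]
    refine Finset.sum_congr rfl fun e' _ => ?_
    rw [Finset.mul_sum]
    refine Finset.sum_congr rfl fun a _ => ?_
    rw [Finset.mul_sum]
  rw [h2, Finset.mul_sum]
  refine Finset.sum_congr rfl fun e _ => ?_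
  simp only [norm_chi_chi]
  simp
  ring

theorem norm_QQ_symm {n : ℕ} (x : Tri n → ℝ) : (QQ x)ᵀ = QQ x := by
  simp only [QQ, Matrix.transpose_sub, Matrix.transpose_one, Matrix.transpose_smul,
    Matrix.transpose_sum, Matrix.transpose_vecMulVec]

theorem norm_QQ_form {n : ℕ} (x : Tri n → ℝ) (v : E n → ℝ) :
    v ⬝ᵥ (QQ x *ᵥ v) = ∑ e, v e ^ 2 -
      (1 / (6 * (n : ℝ))) * ∑ t : Tri n, (1 - x t) * (cob (norm_ext v) t) ^ 2 := by
  simp only [QQ, Matrix.sub_mulVec, Matrix.one_mulVec, Matrix.smul_mulVec, Matrix.sum_mulVec,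
    Matrix.vecMulVec_mulVec, dotProduct_sub, dotProduct_smul, dotProduct_sum]
  congr 1
  · simp [dotProduct, pow_two]
  · rw [smul_eq_mul]
    congr 1
    refine Finset.sum_congr rfl fun t _ => ?_
    rw [norm_cob_ext]
    have e1 : (fun e : E n => (bd t e.1 : ℝ)) ⬝ᵥ v = ∑ e : E n, (bd t e.1 : ℝ) * v e := rfl
    have e2 : (v ⬝ᵥ fun e : E n => (bd t e.1 : ℝ)) = ∑ e : E n, (bd t e.1 : ℝ) * v e := by
      rw [dotProduct_comm]; rfl
    rw [e1, e2, smul_eq_mul, MulOpposite.smul_eq_mul_unop, MulOpposite.unop_op, pow_two]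

/-- BLOCK NORM -/
theorem QQ_psd_pr (n : ℕ) (hn : 1 ≤ n) (x : Tri n → ℝ) (hx : ∀ t, 0 ≤ x t) :
    (QQ x).PosSemidef := by
  have hn0 : (0 : ℝ) < n := by exact_mod_cast hn
  refine Matrix.PosSemidef.of_dotProduct_mulVec_nonneg ?_ ?_
  · rw [Matrix.IsHermitian, Matrix.conjTranspose_eq_transpose_of_trivial]
    exact norm_QQ_symm x
  · intro v
    rw [star_trivial, norm_QQ_form]
    have h1 : ∑ t : Tri n, (1 - x t) * (cob (norm_ext v) t) ^ 2 ≤
        ∑ t : Tri n, (cob (norm_ext v) t) ^ 2 := by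
      refine Finset.sum_le_sum fun t _ => ?_
      have := mul_nonneg (hx t) (sq_nonneg (cob (norm_ext v) t))
      nlinarith
    rw [norm_identity_pr _ (norm_ext_anti v), norm_ext_sq] at h1
    have h2 : 0 ≤ ∑ a, (∑ b, norm_ext v a b) ^ 2 := Finset.sum_nonneg fun a _ => sq_nonneg _
    have h3 : (1 / (6 * (n : ℝ))) * ∑ t : Tri n, (1 - x t) * (cob (norm_ext v) t) ^ 2 ≤
        (1 / (6 * (n : ℝ))) * (3 * n * (2 * ∑ e : E n, v e ^ 2)) := by
      refine mul_le_mul_of_nonneg_left ?_ (by positivity)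
      linarith
    have h4 : (1 / (6 * (n : ℝ))) * (3 * n * (2 * ∑ e : E n, v e ^ 2)) = ∑ e : E n, v e ^ 2 := by
      field_simp
      ring
    linarith

end Pool.Agent.HT
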