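import Pool.Agent.Lib_helper62.HT.CB
import Pool.Agent.Lib_helper62.HT.NORM

set_option autoImplicit false

open Finset Matrix

namespace Pool.Agent.HT

theorem core_chi_self {n : ℕ} (a : Fin n) (e : Fin n × Fin n) : chi a a e = 0 := by
  simp [chi]

/-- evaluation of the antisymmetric extension, all edges -/
theorem core_ext_of {n : ℕ} (G : Fin n → Fin n → ℝ) (hG : ∀ a b, G a b = - G b a)
    (a b : Fin n) : ∑ e : E n, ((chi a b e.1 : ℤ) : ℝ) * G e.1.1 e.1.2 = G a b := by
  rcases lt_trichotomy a b with h | h | h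
  · rw [Finset.sum_eq_single (⟨(a, b), h⟩ : E n)]
    · simp [chi, h.ne, h.ne']
    · rintro ⟨⟨u, v⟩, huv⟩ _ hne
      simp only at huv
      have h1 : ¬ ((u, v) = (a, b)) := fun hh => hne (Subtype.ext hh)
      have h2 : ¬ ((u, v) = (b, a)) := by
        intro hh
        rw [Prod.mk.injEq] at hh
        obtain ⟨rfl, rfl⟩ := hh
        exact absurd (h.trans huv) (lt_irrefl _)
      simp [chi, h1, h2]
    · intro hh
      exact absurd (Finset.mem_univ _) hh
  · subst h
    have : G a a = 0 := by have := hG a a; linarith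
    simp [core_chi_self, this]
  · rw [Finset.sum_eq_single (⟨(b, a), h⟩ : E n)]
    · rw [hG a b]
      simp [chi, h.ne, h.ne']
    · rintro ⟨⟨u, v⟩, huv⟩ _ hne
      simp only at huv
      have h1 : ¬ ((u, v) = (b, a)) := fun hh => hne (Subtype.ext hh)
      have h2 : ¬ ((u, v) = (a, b)) := by
        intro hh
        rw [Prod.mk.injEq] at hh
        obtain ⟨rfl, rfl⟩ := hh
        exact absurd (h.trans huv) (lt_irrefl _)
      simp [chi, h1, h2]
    · intro hh
      exact absurd (Finset.mem_univ _) hh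

/-- evaluation of the antisymmetric extension, non-root edges -/
theorem core_tl_of {n : ℕ} (G : Fin n → Fin n → ℝ) (hG : ∀ a b, G a b = - G b a)
    (h0 : ∀ a b : Fin n, a.val = 0 → G a b = 0)
    (a b : Fin n) : ∑ e : E' n, ((chi a b e.1 : ℤ) : ℝ) * G e.1.1 e.1.2 = G a b := by
  by_cases ha : a.val = 0
  · rw [h0 a b ha]
    refine Finset.sum_eq_zero fun e _ => ?_
    obtain ⟨⟨u, v⟩, hu, huv⟩ := e
    simp only at hu huv
    have h1 : ¬ ((u, v) = (a, b)) := by
      intro hh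
      rw [Prod.mk.injEq] at hh
      obtain ⟨rfl, rfl⟩ := hh
      omega
    have h2 : ¬ ((u, v) = (b, a)) := by
      intro hh
      rw [Prod.mk.injEq] at hh
      obtain ⟨rfl, rfl⟩ := hh
      have := Fin.lt_def.mp huv
      omega
    simp [chi, h1, h2]
  by_cases hb : b.val = 0
  · rw [hG, h0 b a hb, neg_zero]
    refine Finset.sum_eq_zero fun e _ => ?_
    obtain ⟨⟨u, v⟩, hu, huv⟩ := e
    simp only at hu huv
    have h1 : ¬ ((u, v) = (b, a)) := by
      intro hh
      rw [Prod.mk.injEq] at hh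
      obtain ⟨rfl, rfl⟩ := hh
      omega
    have h2 : ¬ ((u, v) = (a, b)) := by
      intro hh
      rw [Prod.mk.injEq] at hh
      obtain ⟨rfl, rfl⟩ := hh
      have := Fin.lt_def.mp huv
      omega
    simp [chi, h1, h2]
  have ha' : 0 < a.val := Nat.pos_of_ne_zero ha
  have hb' : 0 < b.val := Nat.pos_of_ne_zero hb
  rcases lt_trichotomy a b with h | h | h
  · rw [Finset.sum_eq_single (⟨(a, b), ha', h⟩ : E' n)]
    · simp [chi, h.ne, h.ne']
    · rintro ⟨⟨u, v⟩, hu, huv⟩ _ hne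
      simp only at hu huv
      have h1 : ¬ ((u, v) = (a, b)) := fun hh => hne (Subtype.ext hh)
      have h2 : ¬ ((u, v) = (b, a)) := by
        intro hh
        rw [Prod.mk.injEq] at hh
        obtain ⟨rfl, rfl⟩ := hh
        exact absurd (h.trans huv) (lt_irrefl _)
      simp [chi, h1, h2]
    · intro hh
      exact absurd (Finset.mem_univ _) hh
  · subst h
    have : G a a = 0 := by have := hG a a; linarith
    simp [core_chi_self, this]
  · rw [Finset.sum_eq_single (⟨(b, a), hb', h⟩ : E' n)]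
    · rw [hG a b]
      simp [chi, h.ne, h.ne']
    · rintro ⟨⟨u, v⟩, hu, huv⟩ _ hne
      simp only at hu huv
      have h1 : ¬ ((u, v) = (b, a)) := fun hh => hne (Subtype.ext hh)
      have h2 : ¬ ((u, v) = (a, b)) := by
        intro hh
        rw [Prod.mk.injEq] at hh
        obtain ⟨rfl, rfl⟩ := hh
        exact absurd (h.trans huv) (lt_irrefl _)
      simp [chi, h1, h2]
    · intro hh
      exact absurd (Finset.mem_univ _) hh

/-- the matrix of the cones -/
noncomputable def coreQ {n : ℕ} (r : Fin n) : Matrix (E n) (E' n) ℝ :=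
  Matrix.of fun e f => (bd (r, f.1.1, f.1.2) e.1 : ℝ)

/-- restriction of a boundary to the non-root edges -/
noncomputable def coreV {n : ℕ} (t : Tri n) (f : E' n) : ℝ := (bd t f.1 : ℝ)

theorem core_cone {n : ℕ} (r : Fin n) (hr : r.val = 0) (t : Tri n) (e : E n) :
    ∑ f : E' n, coreQ r e f * coreV t f = (bd t e.1 : ℝ) := by
  have hG : ∀ a b : Fin n, ((bd (r, a, b) e.1 : ℤ) : ℝ) = - ((bd (r, b, a) e.1 : ℤ) : ℝ) := by
    intro a b
    simp only [bd]
    rw [norm_chi_anti r a, norm_chi_anti a b, norm_chi_anti b r]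
    push_cast
    ring
  have h0 : ∀ a b : Fin n, a.val = 0 → ((bd (r, a, b) e.1 : ℤ) : ℝ) = 0 := by
    intro a b ha
    have : a = r := Fin.ext (ha.trans hr.symm)
    subst this
    simp only [bd]
    rw [core_chi_self, norm_chi_anti b a]
    push_cast
    ring
  have key := core_tl_of (fun a b => ((bd (r, a, b) e.1 : ℤ) : ℝ)) hG h0
  have h1 : ∑ f : E' n, coreQ r e f * coreV t f =
      cob (fun a b => ∑ f : E' n, ((chi a b f.1 : ℤ) : ℝ) *
        ((bd (r, f.1.1, f.1.2) e.1 : ℤ) : ℝ)) t := by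
    simp only [cob, coreQ, coreV, Matrix.of_apply]
    rw [← Finset.sum_add_distrib, ← Finset.sum_add_distrib]
    refine Finset.sum_congr rfl fun f _ => ?_
    have : (bd t f.1 : ℝ) = ((chi t.1 t.2.1 f.1 : ℤ) : ℝ) + ((chi t.2.1 t.2.2 f.1 : ℤ) : ℝ) +
        ((chi t.2.2 t.1 f.1 : ℤ) : ℝ) := by
      simp only [bd]; push_cast; ring
    rw [this]
    ring
  rw [h1]
  simp only [cob]
  rw [key, key, key]
  simp only [bd]
  rw [norm_chi_anti t.2.1 r, norm_chi_anti t.2.2 r, norm_chi_anti t.1 r]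
  push_cast
  ring

theorem core_inc {n : ℕ} (t : Tri n) (a : Fin n) :
    ∑ e : E n, norm_inc e.1 a * (bd t e.1 : ℝ) = 0 := by
  have h1 : ∑ e : E n, norm_inc e.1 a * (bd t e.1 : ℝ) =
      cob (norm_ext fun e => norm_inc e.1 a) t := by
    rw [norm_cob_ext]
    exact Finset.sum_congr rfl fun e _ => mul_comm _ _
  have h2 : norm_ext (fun e : E n => norm_inc e.1 a) = fun b c => norm_inc (b, c) a := by
    funext b c
    exact core_ext_of (fun b c => norm_inc (b, c) a) (fun b c => by simp [norm_inc]) b c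
  rw [h1, h2]
  simp only [cob, norm_inc]
  ring

theorem core_Q_restrict {n : ℕ} (r : Fin n) (hr : r.val = 0) (e f : E' n) :
    coreQ r ⟨e.1, e.2.2⟩ f = if e = f then 1 else 0 := by
  obtain ⟨⟨u, v⟩, hu, huv⟩ := e
  obtain ⟨⟨u', v'⟩, hu', huv'⟩ := f
  simp only at hu huv hu' huv'
  have hv : 0 < v.val := lt_trans hu (Fin.lt_def.mp huv)
  have c1 : ¬ ((u, v) = (r, u')) := by
    intro hh; rw [Prod.mk.injEq] at hh; obtain ⟨rfl, rfl⟩ := hh; omega
  have c2 : ¬ ((u, v) = (u', r)) := by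
    intro hh; rw [Prod.mk.injEq] at hh; obtain ⟨rfl, rfl⟩ := hh; omega
  have c3 : ¬ ((u, v) = (v', r)) := by
    intro hh; rw [Prod.mk.injEq] at hh; obtain ⟨rfl, rfl⟩ := hh; omega
  have c4 : ¬ ((u, v) = (r, v')) := by
    intro hh; rw [Prod.mk.injEq] at hh; obtain ⟨rfl, rfl⟩ := hh; omega
  have c5 : ¬ ((u, v) = (v', u')) := by
    intro hh; rw [Prod.mk.injEq] at hh; obtain ⟨rfl, rfl⟩ := hh
    exact absurd (huv.trans huv') (lt_irrefl _)
  simp only [coreQ, Matrix.of_apply, bd, chi, if_neg c1, if_neg c2, if_neg c3, if_neg c4,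
    if_neg c5, Subtype.mk.injEq]
  push_cast
  ring

/-- weighted Laplacian on the non-root edges -/
noncomputable def coreL {n : ℕ} (x : Tri n → ℝ) : Matrix (E' n) (E' n) ℝ :=
  ∑ t, x t • Matrix.vecMulVec (coreV t) (coreV t)

theorem core_vec {n : ℕ} (r : Fin n) (hr : r.val = 0) (t : Tri n) :
    (fun e : E n => (bd t e.1 : ℝ)) = coreQ r *ᵥ coreV t := by
  funext e
  exact (core_cone r hr t e).symm

theorem core_key {n : ℕ} (r : Fin n) (hr : r.val = 0) :
    coreL (fun _ : Tri n => (1 : ℝ)) * ((coreQ r)ᵀ * coreQ r) =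
      (6 * (n : ℝ)) • (1 : Matrix (E' n) (E' n) ℝ) := by
  rw [← Matrix.mul_assoc]
  have h1 : ∀ (e : E' n) (f : E n), (coreL (fun _ : Tri n => (1 : ℝ)) * (coreQ r)ᵀ) e f =
      6 * n * (if (⟨e.1, e.2.2⟩ : E n) = f then 1 else 0) -
        6 * ∑ a, norm_inc e.1 a * norm_inc f.1 a := by
    intro e f
    have h2 := norm_gram (⟨e.1, e.2.2⟩ : E n) f
    rw [← h2]
    rw [Matrix.mul_apply]
    have h3 : ∀ g : E' n, coreL (fun _ : Tri n => (1 : ℝ)) e g * (coreQ r)ᵀ g f =
        ∑ t : Tri n, (bd t e.1 : ℝ) * (coreQ r f g * coreV t g) := by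
      intro g
      simp only [coreL, Matrix.sum_apply, one_smul, Matrix.vecMulVec_apply,
        Matrix.transpose_apply, Finset.sum_mul]
      refine Finset.sum_congr rfl fun t _ => ?_
      simp only [coreV]
      ring
    rw [Finset.sum_congr rfl fun g _ => h3 g, Finset.sum_comm]
    refine Finset.sum_congr rfl fun t _ => ?_
    rw [← Finset.mul_sum, core_cone r hr]
  ext e f
  rw [Matrix.mul_apply]
  simp only [h1, sub_mul, Finset.sum_sub_distrib]
  have h4 : ∑ g : E n, 6 * (n : ℝ) * (if (⟨e.1, e.2.2⟩ : E n) = g then 1 else 0) * coreQ r g f =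
      6 * n * (if e = f then 1 else 0) := by
    rw [← core_Q_restrict r hr e f]
    rw [Finset.sum_eq_single (⟨e.1, e.2.2⟩ : E n)]
    · simp
    · intro g _ hg
      simp [Ne.symm hg]
    · intro hh
      exact absurd (Finset.mem_univ _) hh
  have h5 : ∑ g : E n, 6 * (∑ a, norm_inc e.1 a * norm_inc g.1 a) * coreQ r g f = 0 := by
    have : ∀ g : E n, 6 * (∑ a, norm_inc e.1 a * norm_inc g.1 a) * coreQ r g f =
        ∑ a, 6 * norm_inc e.1 a * (norm_inc g.1 a * (bd (r, f.1.1, f.1.2) g.1 : ℝ)) := by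
      intro g
      rw [Finset.mul_sum, Finset.sum_mul]
      refine Finset.sum_congr rfl fun a _ => ?_
      simp only [coreQ, Matrix.of_apply]
      ring
    rw [Finset.sum_congr rfl fun g _ => this g, Finset.sum_comm]
    refine Finset.sum_eq_zero fun a _ => ?_
    rw [← Finset.mul_sum, core_inc, mul_zero]
  rw [h4, h5]
  simp [Matrix.smul_apply, Matrix.one_apply]

theorem core_QQ {n : ℕ} (r : Fin n) (hr : r.val = 0) (x : Tri n → ℝ) :
    QQ x = 1 - coreQ r * (((1 / (6 * (n : ℝ))) •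
      (coreL (fun _ => 1) - coreL x)) * (coreQ r)ᵀ) := by
  have h1 : ∀ t : Tri n, Matrix.vecMulVec (fun e : E n => (bd t e.1 : ℝ))
      (fun e : E n => (bd t e.1 : ℝ)) =
      coreQ r * (Matrix.vecMulVec (coreV t) (coreV t)) * (coreQ r)ᵀ := by
    intro t
    rw [core_vec r hr t, Matrix.mul_vecMulVec, Matrix.vecMulVec_mul, Matrix.vecMul_transpose]
  simp only [QQ, h1]
  congr 1
  simp only [coreL, ← Finset.sum_sub_distrib, one_smul]
  rw [Matrix.smul_mul, Matrix.mul_smul]
  congr 1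
  rw [Matrix.sum_mul, Matrix.mul_sum]
  refine Finset.sum_congr rfl fun t _ => ?_
  rw [sub_smul, one_smul, Matrix.sub_mul, Matrix.mul_sub, Matrix.smul_mul, Matrix.mul_smul,
    Matrix.mul_assoc]

theorem core_det {n : ℕ} (hn : 1 ≤ n) (x : Tri n → ℝ) :
    (coreL (fun _ : Tri n => (1 : ℝ))).det * (QQ x).det = (coreL x).det := by
  have hn0 : (n : ℝ) ≠ 0 := by
    have : (0 : ℝ) < n := by exact_mod_cast hn
    exact this.ne'
  let r : Fin n := ⟨0, hn⟩
  have hr : r.val = 0 := rfl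
  have key := core_key r hr
  set P := (coreQ r)ᵀ * coreQ r with hP
  have hc : (1 / (6 * (n : ℝ))) • (coreL (fun _ : Tri n => (1 : ℝ)) * P) = 1 := by
    rw [key, smul_smul, one_div, inv_mul_cancel₀ (by positivity), one_smul]
  rw [core_QQ r hr x, Matrix.det_one_sub_mul_comm, Matrix.mul_assoc, ← hP, Matrix.smul_mul,
    Matrix.sub_mul, smul_sub, hc, sub_sub_cancel, ← Matrix.mul_smul, Matrix.det_mul, ← mul_assoc,
    mul_comm (Matrix.det _) (Matrix.det (coreL x)), mul_assoc, ← Matrix.det_mul, Matrix.mul_smul,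
    hc, Matrix.det_one, mul_one]

theorem core_wt {n : ℕ} (τ : E' n → Tri n) :
    wt τ = (Matrix.of fun i e => coreV (τ i) e).det ^ 2 := by
  have h : (Matrix.of fun i e => coreV (τ i) e) = (M τ).map (Int.castRingHom ℝ) := by
    ext i e
    simp [coreV, M]
  rw [wt, h, ← RingHom.mapMatrix_apply, ← RingHom.map_det]
  rfl

theorem core_sum {n : ℕ} (x : Tri n → ℝ) :
    ∑ τ : E' n → Tri n, wt τ * ∏ i, x (τ i) =
      ((Fintype.card (E' n)).factorial : ℝ) * (coreL x).det := by
  rw [coreL, ← cb_pr]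
  refine Finset.sum_congr rfl fun τ _ => ?_
  rw [core_wt, mul_comm]

theorem core_Z (n : ℕ) : Z n = ((Fintype.card (E' n)).factorial : ℝ) *
    (coreL (fun _ : Tri n => (1 : ℝ))).det := by
  rw [← core_sum, Z]
  simp

/-- BLOCK CORE -/
theorem core_pr (n : ℕ) (hn : 1 ≤ n) (x : Tri n → ℝ) :
    ∑ τ : E' n → Tri n, wt τ * ∏ i, x (τ i) = Z n * (QQ x).det := by
  rw [core_sum, core_Z, mul_assoc, core_det hn]

theorem Z_pos_pr (n : ℕ) (hn : 1 ≤ n) : 0 < Z n := by
  have h0 : 0 ≤ Z n := Finset.sum_nonneg fun τ _ => sq_nonneg _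
  refine lt_of_le_of_ne h0 (Ne.symm ?_)
  rw [core_Z]
  refine mul_ne_zero (by exact_mod_cast Nat.factorial_ne_zero _) ?_
  intro hd
  let r : Fin n := ⟨0, hn⟩
  have key := congrArg Matrix.det (core_key r rfl)
  rw [Matrix.det_mul, hd, zero_mul, Matrix.det_smul, Matrix.det_one, mul_one] at key
  have hn0 : (0 : ℝ) < n := by exact_mod_cast hn
  have : (6 * (n : ℝ)) ^ Fintype.card (E' n) ≠ 0 := by positivity
  exact this key.symm

end Pool.Agent.HT
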